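import Pool.Agent.helper24.CG.Spec

/-!
# MP_ba8873_co, biased clique game, row RQQ
-/

set_option autoImplicit false

namespace Pool.Agent.helper24.CG

theorem RQQ_max (b : ℕ) (h1 : 1 ≤ b) (h2 : b ≤ 2) :
    max (2 / (b : ℝ)) (1 / Real.log (1 + b)) ≤ 2 / (b : ℝ) := by
  refine max_le le_rfl ?_
  have hlog2 : (1 : ℝ) / 2 ≤ Real.log 2 := by
    have := Real.log_two_gt_d9
    linarith
  have hb : b = 1 ∨ b = 2 := by omega
  rcases hb with rfl | rfl
  · have h3 : (1 : ℝ) + ((1 : ℕ) : ℝ) = 2 := by norm_num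
    rw [h3, div_le_iff₀ (by linarith)]
    have h4 : (2 : ℝ) / ((1 : ℕ) : ℝ) = 2 := by norm_num
    rw [h4]
    linarith
  · have h3 : (1 : ℝ) + ((2 : ℕ) : ℝ) = 3 := by norm_num
    have h4 : (2 : ℝ) / ((2 : ℕ) : ℝ) = 1 := by norm_num
    have h5 : (1 : ℝ) ≤ Real.log 3 := by
      rw [Real.le_log_iff_exp_le (by norm_num)]
      have := Real.exp_one_lt_d9
      linarith
    rw [h3, h4, div_le_iff₀ (by linarith)]
    linarith

theorem RQQ (h1 : RES_stmt) (h2 : QCP_stmt) : RQQ_stmt := by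
  intro b hb1 hb2
  obtain ⟨C, hC⟩ := h1 b hb1
  set c : ℝ := |C| * b / 2 with hc
  have hb0 : (0 : ℝ) < b := by exact_mod_cast (by omega : 0 < b)
  have hc0 : 0 ≤ c := by positivity
  refine ⟨2 * c + 1, fun m hm => ?_⟩
  have hm1 : 1 ≤ m := by omega
  have hmr : (1 : ℝ) ≤ (m : ℝ) := by exact_mod_cast hm1
  have hm0 : (0 : ℝ) < (m : ℝ) := by linarith
  set x : ℝ := (m : ℝ) ^ (-(1 / 9) : ℝ) with hx
  have hx0 : 0 < x := Real.rpow_pos_of_pos hm0 _
  have hx1 : x ≤ 1 := Real.rpow_le_one_of_one_le_of_nonpos hmr (by norm_num)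
  have hx2 : (m : ℝ) ^ (8 / 9 : ℝ) = m * x := by
    have h3 : (m : ℝ) ^ (8 / 9 : ℝ) = (m : ℝ) ^ ((1 : ℝ) + (-(1 / 9) : ℝ)) := by norm_num
    rw [h3, Real.rpow_add hm0, Real.rpow_one]
  obtain ⟨N₁, hN₁⟩ := hC m hm1
  obtain ⟨N₂, hN₂⟩ := h2 b m x hb1 hm hx0
  refine ⟨max (max N₁ N₂) 1, fun N hN => ?_⟩
  have hNa : N₁ ≤ N := le_trans (le_trans (le_max_left _ _) (le_max_left _ _)) hN
  have hNb : N₂ ≤ N := le_trans (le_trans (le_max_right _ _) (le_max_left _ _)) hN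
  have hNc : 1 ≤ N := le_trans (le_max_right _ _) hN
  have hlog : 0 ≤ Real.log N := Real.log_nonneg (by exact_mod_cast hNc)
  have hA := hN₁ N hNa
  have hQ := hN₂ N hNb
  have hQ0 : 0 ≤ QQ N m b := by
    have h3 : 0 ≤ 2 * (m : ℝ) / b * Real.log N := by positivity
    have h4 : 0 ≤ (1 + x) * QQ N m b := h3.trans hQ
    by_contra hneg
    have h5 : QQ N m b < 0 := lt_of_not_ge hneg
    have h6 : (1 + x) * QQ N m b < 0 := mul_neg_of_pos_of_neg (by linarith) h5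
    linarith
  have hmax := RQQ_max b hb1 hb2
  have h3 : max (2 / (b : ℝ)) (1 / Real.log (1 + b)) * m + C * (m : ℝ) ^ (8 / 9 : ℝ) ≤
      2 * (m : ℝ) / b * (1 + c * x) := by
    have h4 : max (2 / (b : ℝ)) (1 / Real.log (1 + b)) * m ≤ 2 / (b : ℝ) * m :=
      mul_le_mul_of_nonneg_right hmax hm0.le
    have h5 : C * (m : ℝ) ^ (8 / 9 : ℝ) ≤ |C| * (m * x) := by
      rw [hx2]
      exact mul_le_mul_of_nonneg_right (le_abs_self C) (by positivity)
    have h6 : 2 * (m : ℝ) / b * (1 + c * x) = 2 / (b : ℝ) * m + |C| * (m * x) := by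
      rw [hc]
      field_simp
    linarith
  calc (A N m b : ℝ) ≤ _ := hA
    _ ≤ 2 * (m : ℝ) / b * (1 + c * x) * Real.log N := mul_le_mul_of_nonneg_right h3 hlog
    _ = (1 + c * x) * (2 * (m : ℝ) / b * Real.log N) := by ring
    _ ≤ (1 + c * x) * ((1 + x) * QQ N m b) :=
        mul_le_mul_of_nonneg_left hQ (by positivity)
    _ = ((1 + c * x) * (1 + x)) * QQ N m b := by ring
    _ ≤ (1 + (2 * c + 1) * x) * QQ N m b := by
        refine mul_le_mul_of_nonneg_right ?_ hQ0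
        have h7 : c * x * x ≤ c * x * 1 := mul_le_mul_of_nonneg_left hx1 (by positivity)
        nlinarith

end Pool.Agent.helper24.CG
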